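import Pool.Agent.helper64.PB.SpecF

/-! # Row pb:GXR: sums of three good sets are good -/

set_option autoImplicit false

namespace Pool.Agent.PB

open Finset Polynomial

theorem GXR_col {K : Type} [Field K] [Fintype K] [DecidableEq K] (A B : Finset (K × K)) (α : K) :
    col (symmDiff A B) α = symmDiff (col A α) (col B α) := by
  ext y
  simp [col, Finset.mem_symmDiff]

theorem GXR_card {P : Type} [DecidableEq P] (A B : Finset P) :
    (symmDiff A B).card + 2 * (A ∩ B).card = A.card + B.card := by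
  have h1 : (symmDiff A B).card = (A \ B).card + (B \ A).card := by
    rw [symmDiff_def, Finset.sup_eq_union]
    exact Finset.card_union_of_disjoint disjoint_sdiff_sdiff
  have h2 := Finset.card_sdiff_add_card_inter A B
  have h3 := Finset.card_sdiff_add_card_inter B A
  rw [Finset.inter_comm B A] at h3
  omega

theorem GXR_sum {K : Type} [Field K] [DecidableEq K] [CharP K 2] (A B : Finset K) (f : K → K) :
    ∑ y ∈ symmDiff A B, f y = ∑ y ∈ A, f y + ∑ y ∈ B, f y := by
  have h1 : ∑ y ∈ symmDiff A B, f y = ∑ y ∈ A \ B, f y + ∑ y ∈ B \ A, f y := by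
    rw [symmDiff_def, Finset.sup_eq_union]
    exact Finset.sum_union disjoint_sdiff_sdiff
  have h2 : ∑ y ∈ A \ B, f y + ∑ y ∈ A ∩ B, f y = ∑ y ∈ A, f y := by
    rw [add_comm]; exact Finset.sum_inter_add_sum_sdiff A B f
  have h3 : ∑ y ∈ B \ A, f y + ∑ y ∈ B ∩ A, f y = ∑ y ∈ B, f y := by
    rw [add_comm]; exact Finset.sum_inter_add_sum_sdiff B A f
  rw [Finset.inter_comm B A] at h3
  have h4 := CharTwo.add_self_eq_zero (∑ y ∈ A ∩ B, f y)
  rw [h1, ← h2, ← h3]
  calc ∑ y ∈ A \ B, f y + ∑ y ∈ B \ A, f y = ∑ y ∈ A \ B, f y + ∑ y ∈ B \ A, f y + 0 := by ring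
    _ = ∑ y ∈ A \ B, f y + ∑ y ∈ B \ A, f y + (∑ y ∈ A ∩ B, f y + ∑ y ∈ A ∩ B, f y) := by rw [h4]
    _ = _ := by ring

theorem GXR : GXR_stmt := by
  intro K _ _ _ _ c J U V W hU hV hW
  constructor
  · intro α
    have h1 := hU.1 α
    have h2 := hV.1 α
    have h3 := hW.1 α
    rw [GXR_col, GXR_col]
    have h4 := GXR_card (col U α) (symmDiff (col V α) (col W α))
    have h5 := GXR_card (col V α) (col W α)
    rw [Nat.odd_iff] at *
    omega
  · intro j hj1 hj2
    obtain ⟨P, hP, hP'⟩ := hU.2 j hj1 hj2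
    obtain ⟨Q, hQ, hQ'⟩ := hV.2 j hj1 hj2
    obtain ⟨R, hR, hR'⟩ := hW.2 j hj1 hj2
    refine ⟨P + (Q + R), ?_, ?_⟩
    · exact (natDegree_add_le _ _).trans (max_le hP ((natDegree_add_le _ _).trans (max_le hQ hR)))
    · intro α
      rw [GXR_col, GXR_col, GXR_sum, GXR_sum, hP' α, hQ' α, hR' α, eval_add, eval_add]

end Pool.Agent.PB
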