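import Pool.Agent.helper64.PB.SpecL

/-! # Row pb:QSS: the self-dual case of the question -/

set_option autoImplicit false

namespace Pool.Agent.PB

theorem QSS (hFWD : FWD_stmt) (hCLB : CLB_stmt) (hBCK : BCK_stmt) (hNPS : NPS_stmt) (hNPC : NPC_stmt)
    (hPRP : PRP_stmt) : QSS_stmt := by
  intro G hG hT hW hsd
  constructor
  · intro h A hA hA'
    exact (hBCK G A hG).2.2 (h _ (hCLB G hT hW hsd A) (hNPS A hA hA'))
  · intro h A hs hA
    have h1 : ∀ n, 1 ≤ n → SelfDual (A n) := fun n hn => (hPRP G n (A n) (hs n hn)).2.2.2.2.1 hsd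
    exact hFWD G A hT hW hs (h A hA (hNPC A h1 hA))

end Pool.Agent.PB
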