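import Pool.Agent.helper64.PB.SpecC

/-! # Row pb:RT0: functions below a variable, with the constant 0 as bottom -/

set_option autoImplicit false

namespace Pool.Agent.PB

theorem RT0_mono {G : Set Gate} {n : ℕ} {f : BF n} {s s' : ℕ} (h : Size G f s) (hs : s ≤ s') : Size G f s' := by
  obtain ⟨l, h1, h2, h3⟩ := h
  exact ⟨l, h1, h2.trans hs, h3⟩

theorem RT0_av {n : ℕ} {l : List (BF n)} (l' : List (BF n)) {f : BF n} (h : Av l f) : Av (l' ++ l) f := by
  rcases h with h | h
  · exact Or.inl (List.mem_append_right _ h)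
  · exact Or.inr h

/-- `t and (b or not w)` for `w, t, b` in the class -/
theorem RT0_N (hCLP : CLP_stmt) {G : Set Gate} (hM : InCl G fM) {m : ℕ} (t b w : BF m) (ht : InCl G t)
    (hb : InCl G b) (hw : InCl G w) : InCl G (fun y : Fin m → Bool => t y && (b y || !(w y))) := by
  have h := hCLP.2 G 3 m fM ![t, b, w] hM (by
    intro i
    fin_cases i
    · exact ht
    · exact hb
    · exact hw)
  exact h

theorem RT0 (hSIM : SIM_stmt) (hCLP : CLP_stmt) (hSUB : SUB_stmt) (hAPP : APP_stmt) : RT0_stmt := by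
  intro G hM hC
  -- conjunction
  have hAnd : ∀ {m : ℕ} (u v : BF m), InCl G u → InCl G v → InCl G (fun y : Fin m → Bool => u y && v y) := by
    intro m u v hu hv
    have h := RT0_N hCLP hM u v u hu hv hu
    have he : (fun y : Fin m → Bool => u y && (v y || !(u y))) = fun y => u y && v y := by
      funext y
      cases u y <;> cases v y <;> rfl
    rw [he] at h
    exact h
  have hv : ∀ (m : ℕ) (j : Fin m), InCl G (fun y : Fin m → Bool => y j) := fun m j => hCLP.1 G m j
  obtain ⟨cA, hcA⟩ := hAnd (m := 2) (fun y => y 0) (fun y => y 1) (hv 2 0) (hv 2 1)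
  obtain ⟨c1, hc1⟩ := hC
  -- the gates
  obtain ⟨ca, hca⟩ := hAnd (m := 4) (fun y => y 0) (fun y => y 1) (hv 4 0) (hv 4 1)
  obtain ⟨cn, hcn⟩ := RT0_N hCLP hM (m := 3) (fun y => y 1) (fun y => y 2) (fun y => y 0) (hv 3 1) (hv 3 2) (hv 3 0)
  obtain ⟨co, hco⟩ := RT0_N hCLP hM (m := 4) (fun y => y 2) (fun y => y 3)
    (fun y => (y 2 && (y 3 || !(y 0))) && (y 2 && (y 3 || !(y 1)))) (hv 4 2) (hv 4 3)
    (hAnd _ _ (RT0_N hCLP hM (fun y => y 2) (fun y => y 3) (fun y => y 0) (hv 4 2) (hv 4 3) (hv 4 0))
      (RT0_N hCLP hM (fun y => y 2) (fun y => y 3) (fun y => y 1) (hv 4 2) (hv 4 3) (hv 4 1)))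
  let c0 : ℕ := ca + cn + co
  refine ⟨c1 + cA + c0, fun n f i s hf hs => ?_⟩
  have hn : 1 ≤ n := Nat.one_le_iff_ne_zero.2 (fun h => by subst h; exact i.elim0)
  -- the constant 0
  obtain ⟨lb, hlb, hlb1, hlb2⟩ := hSUB G 1 n (fC false 1) c1 [] (fun _ x => x i) hc1 Prog.nil
    (fun _ => Or.inr ⟨i, rfl⟩)
  rw [List.append_nil] at hlb hlb2
  -- the shadows of the variables
  have hlist : ∀ L : List (Fin n), ∃ l : List (BF n), Prog G n l ∧ l.length ≤ c1 + L.length * cA ∧
      Av l (fun _ => false) ∧ ∀ j ∈ L, Av l (fun x => x i && x j) := by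
    intro L
    induction L with
    | nil => exact ⟨lb, hlb, by simpa using hlb1, hlb2, by simp⟩
    | cons j L ih =>
      obtain ⟨l, h1, h2, h3, h4⟩ := ih
      obtain ⟨l', e1, e2, e3⟩ := hSUB G 2 n _ cA l ![fun x => x i, fun x => x j] hcA h1 (by
        intro r
        fin_cases r
        · exact Or.inr ⟨i, rfl⟩
        · exact Or.inr ⟨j, rfl⟩)
      refine ⟨l' ++ l, e1, ?_, RT0_av l' h3, ?_⟩
      · rw [List.length_append, List.length_cons, Nat.add_mul]
        omega
      · intro j' hj'
        rcases List.mem_cons.1 hj' with rfl | hj'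
        · exact e3
        · exact RT0_av l' (h4 j' hj')
  obtain ⟨l0, h1, h2, h3, h4⟩ := hlist (List.finRange n)
  rw [List.length_finRange] at h2
  have hS := hSIM G n (fun u x => x i && u x) (fun x => x i) (fun _ => false) l0 c0
    (fun y => y 0 && y 1) (fun y => y 2 && (y 3 || !((y 2 && (y 3 || !(y 0))) && (y 2 && (y 3 || !(y 1))))))
    (fun y => y 1 && (y 2 || !(y 0))) h1 (Or.inr ⟨i, rfl⟩) h3 (fun j => h4 j (List.mem_finRange j)) ?_
    (RT0_mono hca (by omega)) (RT0_mono hco (by omega)) (RT0_mono hcn (by omega)) ?_ ?_ ?_ f s hs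
  · have he : (fun x : Fin n → Bool => x i && f x) = f := by
      funext x
      have := hf x
      cases hx : f x
      · simp
      · rw [this hx]; rfl
    rw [← he]
    refine RT0_mono hS ?_
    have e1 : (c1 + cA + c0) * (s + n) = c1 * (s + n) + cA * s + n * cA + c0 * s + c0 * n := by ring
    have e2 : c1 ≤ c1 * (s + n) := Nat.le_mul_of_pos_right _ (by omega)
    rw [e1]
    omega
  · intro v
    cases v
    · have : (fun x : Fin n → Bool => x i && fC false n x) = fun _ => false := by
        funext x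
        simp [fC]
      rw [this]
      exact h3
    · right
      refine ⟨i, ?_⟩
      funext x
      simp [fC]
  · intro u v
    funext x
    simp only [Matrix.cons_val_zero, Matrix.cons_val_one]
    cases x i <;> cases u x <;> cases v x <;> rfl
  · intro u v
    funext x
    show (x i && (u x || v x)) = (x i && (false || !((x i && (false || !(x i && u x))) && (x i && (false || !(x i && v x))))))
    cases x i <;> cases u x <;> cases v x <;> rfl
  · intro u
    funext x
    show (x i && !(u x)) = (x i && (false || !(x i && u x)))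
    cases x i <;> cases u x <;> rfl

end Pool.Agent.PB
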