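import Pool.Agent.helper64.PB.SpecC

/-! # Row pb:TTH: the trivial cases -/

set_option autoImplicit false

namespace Pool.Agent.PB

theorem TTH (hTAF : TAF_stmt) (hTCO : TCO_stmt) (hDUA : DUA_stmt) : TTH_stmt := by
  intro G hG
  rcases hG with h | h | h
  · exact hTAF G h
  · exact hTCO G h
  · obtain ⟨-, -, -, hsz, -, -, hpr⟩ := hDUA
    obtain ⟨c, hc⟩ := hTCO (dualB G) (fun g hg => ((hpr g.1 g.2).2.2.2.1).1 (h ⟨g.1, dual g.2⟩ hg))
    refine ⟨c, fun n hn f hf => ?_⟩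
    obtain ⟨s, hs⟩ := hf
    exact (hsz G n f (c * n)).1 (hc n hn (dual f) ⟨s, (hsz G n f s).2 hs⟩)

end Pool.Agent.PB
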